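import Pool.Agent.H468R3.Dk6

/-!
# Finite Coxeter groups whose restricted rational Cherednik algebras are never cellular
-/

set_option autoImplicit false

namespace Pool.Agent.Results.MP_385815_al.NeverCellular

open Pool.Agent.H468R3

/-- **Theorem.** For every even `n ≥ 8` the dihedral group `W = I_2(n)` of order `2 n` is a
finite Coxeter group such that the restricted rational Cherednik algebra `H̄_c(W)` has no cell datum,
for EVERY parameter `c`. -/
theorem result (n : ℕ) [NeZero n] (hn : 8 ≤ n) (he : Even n) : IsCoxeter (Dih.W n) ∧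
    ∀ c : Dih.W n → ℂ, (∀ w s : Dih.W n, c (w * s * w⁻¹) = c s) →
      ¬ Nonempty (CellDatum (RRCA (Dih.W n) c)) :=
  ⟨Dih.isCoxeter n, fun _ hc => Dih.not_cellular hc hn he⟩

end Pool.Agent.Results.MP_385815_al.NeverCellular
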