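import Pool.Agent.H468R3.Dk5

/-!
# Restricted rational Cherednik algebras of finite Coxeter groups at the zero parameter
-/

set_option autoImplicit false

namespace Pool.Agent.Results.MP_385815_al.ZeroParameter

open Pool.Agent.H468R3

/-- **Theorem.** For every nontrivial finite Coxeter group `W` the restricted rational Cherednik
algebra `H̄_0(W)` has no cell datum. -/
theorem result (V : Type) [AddCommGroup V] [Module ℂ V] [FiniteDimensional ℂ V]
    (W : Subgroup (V ≃ₗ[ℂ] V)) [Fintype W] (hW : IsCoxeter W) (hne : W ≠ ⊥) :
    ¬ Nonempty (CellDatum (RRCA W 0)) :=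
  not_cellular_zero hW hne

end Pool.Agent.Results.MP_385815_al.ZeroParameter
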